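import Pool.Agent.H31.MP.Basic

/-!
# Row MH of the board `mtp_modules`: the mean value theorem with level `1/2`
-/

set_option autoImplicit false

open Finset Real ArithmeticFunction
open scoped Nat

namespace Pool.Agent.H42.MTP

open Pool.Agent.H31.MP
open Pool.Agent.H30.BV (NX wx WX SC SP TX cv PC Sf LSI PCH)
open Pool.Agent.H27.LS (hat trig muGT gam)

private lemma mv_card (Q : ℕ) : ((PC Q).card : ℝ) ≤ (Q : ℝ) ^ 2 := by
  classical
  have h1 : (PC Q).card ≤ ∑ _n ∈ Ico 1 Q, Q := by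
    unfold PC
    rw [Finset.card_sigma]
    refine Finset.sum_le_sum fun n hn => ?_
    have hn' := mem_Ico.1 hn
    have h4 : Fintype.card (DirichletCharacter ℂ (n + 1)) = (n + 1).totient := by
      rw [← Nat.card_eq_fintype_card]
      exact DirichletCharacter.card_eq_totient_of_hasEnoughRootsOfUnity ℂ (n + 1)
    calc _ ≤ Fintype.card (DirichletCharacter ℂ (n + 1)) := Finset.card_le_univ _
      _ = (n + 1).totient := h4
      _ ≤ n + 1 := Nat.totient_le _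
      _ ≤ Q := by omega
  have h2 : (PC Q).card ≤ Q * Q := by
    refine h1.trans ?_
    rw [Finset.sum_const, smul_eq_mul, Nat.card_Ico]
    exact Nat.mul_le_mul_right _ (Nat.sub_le _ _)
  calc ((PC Q).card : ℝ) ≤ ((Q * Q : ℕ) : ℝ) := by exact_mod_cast h2
    _ = (Q : ℝ) ^ 2 := by push_cast; ring

private lemma mv_char {Q : ℕ} {x : PCH} (hx : x ∈ PC Q) :
    1 ≤ x.1 ∧ x.1 + 1 ≤ Q ∧ x.2.IsPrimitive := by
  classical
  unfold PC at hx
  rw [Finset.mem_sigma, mem_Ico] at hx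
  exact ⟨hx.1.1, by omega, (mem_filter.1 hx.2).2⟩

/-- the numbers of the proof -/
private lemma nums {X : ℝ} (hX : 3 ≤ X) :
    1 ≤ Real.log X ∧ Real.log ((NX X : ℝ) + 1) ≤ 3 * Real.log X ∧
      Real.log (3 * X + 1) ≤ 3 * Real.log X ∧
      (Nat.log 2 (NX X) : ℝ) + 1 ≤ 6 * Real.log X ∧ 3 * X ≤ (NX X : ℝ) := by
  have hX0 : 0 < X := by linarith
  have hlog1 : 1 ≤ Real.log X := by
    rw [Real.le_log_iff_exp_le (by linarith)]
    exact (Real.exp_one_lt_d9.le.trans (by norm_num)).trans hX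
  have hN : 3 * X ≤ (NX X : ℝ) := Nat.le_ceil _
  have hN2 : (NX X : ℝ) ≤ 3 * X + 1 := (Nat.ceil_lt_add_one (by positivity)).le
  have hlog4 : Real.log (4 * X) ≤ 3 * Real.log X := by
    have e : 3 * Real.log X = Real.log (X ^ 3) := by rw [Real.log_pow]; norm_num
    rw [e]
    apply Real.log_le_log (by positivity)
    nlinarith [sq_nonneg X]
  have hlogN : Real.log ((NX X : ℝ) + 1) ≤ 3 * Real.log X :=
    (Real.log_le_log (by positivity) (by linarith)).trans hlog4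
  refine ⟨hlog1, hlogN, (Real.log_le_log (by positivity) (by linarith)).trans hlog4, ?_, hN⟩
  have h3 : (Nat.log 2 (NX X) : ℝ) * Real.log 2 ≤ Real.log (NX X) := by
    have h4 : (2 : ℝ) ^ (Nat.log 2 (NX X)) ≤ NX X := by
      have h5 : NX X ≠ 0 := by
        intro h
        rw [h] at hN
        norm_num at hN
        linarith
      exact_mod_cast Nat.pow_log_le_self 2 h5
    have h6 := Real.log_le_log (by positivity) h4
    rwa [Real.log_pow] at h6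
  have h5 : Real.log (NX X) ≤ 3 * Real.log X :=
    (Real.log_le_log (by linarith) (by linarith)).trans hlog4
  have h6 : (0.69 : ℝ) < Real.log 2 := by
    have := Real.log_two_gt_d9
    linarith
  have h7 : (0 : ℝ) ≤ Nat.log 2 (NX X) := Nat.cast_nonneg _
  nlinarith

/-- the cut point `U` -/
private lemma cutU {X : ℝ} (hX : 3 ≤ X) : ∃ U : ℕ, 1 ≤ U ∧ 3 * (U : ℝ) ≤ X ∧
    (U : ℝ) * U ≤ X ^ (1 / 5 : ℝ) ∧ √(X / U) ≤ 2 * X ^ (9 / 20 : ℝ) := by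
  have hX0 : 0 < X := by linarith
  set y : ℝ := X ^ (1 / 10 : ℝ) with hy
  have hy0 : 0 < y := Real.rpow_pos_of_pos hX0 _
  have hy1 : 1 ≤ y := Real.one_le_rpow (by linarith) (by norm_num)
  have hy10 : y ^ 10 = X := by
    rw [hy, ← Real.rpow_natCast, ← Real.rpow_mul hX0.le]
    norm_num
  have hfl : (⌊y⌋₊ : ℝ) ≤ y := Nat.floor_le hy0.le
  have hU1 : 1 ≤ ⌊y⌋₊ := Nat.le_floor (by exact_mod_cast hy1)
  have hfl2 : y / 2 ≤ (⌊y⌋₊ : ℝ) := by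
    have h1 := Nat.lt_floor_add_one y
    have h2 : (1 : ℝ) ≤ (⌊y⌋₊ : ℝ) := by exact_mod_cast hU1
    rcases le_total y 2 with h | h
    · linarith
    · linarith
  have hU0 : (0 : ℝ) < (⌊y⌋₊ : ℝ) := by exact_mod_cast hU1
  refine ⟨⌊y⌋₊, hU1, ?_, ?_, ?_⟩
  · rcases Nat.lt_or_ge ⌊y⌋₊ 2 with h | h
    · have h1 : ⌊y⌋₊ = 1 := by omega
      rw [h1]
      push_cast
      linarith
    · have h2 : (2 : ℝ) ≤ y := by
        have : (2 : ℝ) ≤ (⌊y⌋₊ : ℝ) := by exact_mod_cast h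
        linarith
      have h3 : (3 : ℝ) ≤ y ^ 9 := by
        calc (3 : ℝ) ≤ 2 ^ 9 := by norm_num
          _ ≤ y ^ 9 := by gcongr
      calc 3 * (⌊y⌋₊ : ℝ) ≤ y ^ 9 * y := mul_le_mul h3 hfl hU0.le (by positivity)
        _ = X := by rw [← hy10]; ring
  · calc (⌊y⌋₊ : ℝ) * ⌊y⌋₊ ≤ y * y := mul_le_mul hfl hfl hU0.le hy0.le
      _ = X ^ (1 / 5 : ℝ) := by
        rw [hy, ← Real.rpow_add hX0]
        norm_num
  · have h1 : X / (⌊y⌋₊ : ℝ) ≤ (2 * X ^ (9 / 20 : ℝ)) ^ 2 := by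
      rw [div_le_iff₀ hU0]
      have h2 : (2 * X ^ (9 / 20 : ℝ)) ^ 2 * (y / 2) = 2 * X := by
        have h3 : (X ^ (9 / 20 : ℝ)) ^ 2 * y = X := by
          rw [hy, ← Real.rpow_natCast (X ^ (9 / 20 : ℝ)), ← Real.rpow_mul hX0.le,
            ← Real.rpow_add hX0]
          norm_num
        calc (2 * X ^ (9 / 20 : ℝ)) ^ 2 * (y / 2) = 2 * ((X ^ (9 / 20 : ℝ)) ^ 2 * y) := by ring
          _ = 2 * X := by rw [h3]
      have h4 : (2 * X ^ (9 / 20 : ℝ)) ^ 2 * (y / 2) ≤ (2 * X ^ (9 / 20 : ℝ)) ^ 2 * ⌊y⌋₊ :=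
        mul_le_mul_of_nonneg_left hfl2 (sq_nonneg _)
      linarith
    exact Real.sqrt_le_iff.2 ⟨by positivity, h1⟩

theorem pf_MH (hPV : T_PV) (hLS : Pool.Agent.H30.BV.T_LS) (hT2 : Pool.Agent.H30.BV.T_T2)
    (hT1 : Pool.Agent.H30.BV.T_T1) : T_MH := by
  obtain ⟨C₀, hC₀, hPV⟩ := hPV
  refine ⟨30 * C₀ + 3168, by positivity, fun X Q hX hQ1 hQX => ?_⟩
  obtain ⟨hlog1, hlogN, hlog3, hlog2, hN⟩ := nums hX
  obtain ⟨U, hU1, hUX, hUU, hUs⟩ := cutU hX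
  have hX0 : 0 < X := by linarith
  have hQR : (1 : ℝ) ≤ Q := by exact_mod_cast hQ1
  have hQ0 : (0 : ℝ) < Q := by linarith
  have hQX' : (Q : ℝ) ≤ X := le_trans (by nlinarith) hQX
  have hlogN0 : 0 ≤ Real.log ((NX X : ℝ) + 1) := Real.log_nonneg (by linarith)
  have hlogQ : Real.log (2 * Q) ≤ 2 * Real.log X := by
    have e : 2 * Real.log X = Real.log (X ^ 2) := by rw [Real.log_pow]; norm_num
    rw [e]
    apply Real.log_le_log (by positivity)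
    nlinarith
  have hlogQ0 : 0 ≤ Real.log (2 * Q) := Real.log_nonneg (by linarith)
  set B : ℝ := C₀ * (√(Q : ℝ) * Real.log (2 * Q)) with hB
  have hB0 : 0 ≤ B := by positivity
  -- the large sieve
  have hLSI : LSI (PC Q) (fun x : PCH => cv x.2) (Q : ℝ) := fun N a => hLS Q N a
  have hmul : ∀ x ∈ PC Q, ∀ m l : ℕ, cv x.2 (m * l) = cv x.2 m * cv x.2 l := by
    intro x _ m l
    unfold cv
    rw [Nat.cast_mul, map_mul]
  have h2 := hT2 PCH (PC Q) (fun x : PCH => cv x.2) Q hQ0.le hLSI hmul U X (NX X) hU1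
    (by linarith) hN
  have h1 : ∀ x ∈ PC Q, ‖TX X (cv x.2)‖ ≤ 5 * ((U : ℝ) * U) * Real.log ((NX X : ℝ) + 1) * B +
      ‖∑ m ∈ range (NX X + 1), ∑ l ∈ range (NX X + 1), (muGT U m : ℂ) *
        (gam U l : ℂ) * (cv x.2 (m * l) * ((hat (Real.log (m * l / X)) : ℝ) : ℂ))‖ := by
    intro x hx
    obtain ⟨hx1, hx2, hx3⟩ := mv_char hx
    have hx0 : cv x.2 0 = 0 := by
      unfold cv
      have : Fact (1 < x.1 + 1) := ⟨by omega⟩
      rw [Nat.cast_zero]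
      exact MulChar.map_nonunit _ not_isUnit_zero
    have hxB : ∀ M : ℕ, ‖∑ n ∈ range M, cv x.2 n‖ ≤ B := by
      intro M
      refine (hPV (x.1 + 1) x.2 (by omega) hx3 M).trans ?_
      rw [hB]
      have e1 : ((x.1 + 1 : ℕ) : ℝ) ≤ Q := by exact_mod_cast hx2
      have e2 : (0 : ℝ) < ((x.1 + 1 : ℕ) : ℝ) := by exact_mod_cast Nat.succ_pos _
      have e3 : (2 : ℝ) ≤ ((x.1 + 1 : ℕ) : ℝ) := by exact_mod_cast (by omega : 2 ≤ x.1 + 1)
      have e4 : 0 ≤ Real.log (2 * ((x.1 + 1 : ℕ) : ℝ)) := Real.log_nonneg (by linarith)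
      have e5 : Real.log (2 * ((x.1 + 1 : ℕ) : ℝ)) ≤ Real.log (2 * Q) :=
        Real.log_le_log (by positivity) (by linarith)
      have e6 : √((x.1 + 1 : ℕ) : ℝ) ≤ √(Q : ℝ) := Real.sqrt_le_sqrt e1
      gcongr
    have h3 := hT1 (cv x.2) B (fun n => DirichletCharacter.norm_le_one x.2 _) hx0 (hmul x hx)
      hxB U X hU1 (by linarith) hUX
    have h4 := norm_add_le (TX X (cv x.2) - ∑ m ∈ range (NX X + 1), ∑ l ∈ range (NX X + 1),
      (muGT U m : ℂ) * (gam U l : ℂ) *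
        (cv x.2 (m * l) * ((hat (Real.log (m * l / X)) : ℝ) : ℂ)))
      (∑ m ∈ range (NX X + 1), ∑ l ∈ range (NX X + 1), (muGT U m : ℂ) *
        (gam U l : ℂ) * (cv x.2 (m * l) * ((hat (Real.log (m * l / X)) : ℝ) : ℂ)))
    rw [sub_add_cancel] at h4
    exact h4.trans (add_le_add h3 le_rfl)
  refine (Finset.sum_le_sum h1).trans ?_
  rw [Finset.sum_add_distrib, Finset.sum_const, nsmul_eq_mul]
  have hL2 : Real.log X ^ 2 ≤ Real.log X ^ 4 := pow_le_pow_right₀ hlog1 (by norm_num)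
  have hX5 : 0 ≤ X ^ (1 / 5 : ℝ) := (Real.rpow_pos_of_pos hX0 _).le
  have hX20 : 0 ≤ X ^ (19 / 20 : ℝ) := (Real.rpow_pos_of_pos hX0 _).le
  have hQ52 : (Q : ℝ) ^ 2 * √(Q : ℝ) = (Q : ℝ) ^ (5 / 2 : ℝ) := by
    rw [Real.sqrt_eq_rpow, ← Real.rpow_natCast (Q : ℝ), ← Real.rpow_add hQ0]
    norm_num
  have hQ52' : 0 ≤ (Q : ℝ) ^ (5 / 2 : ℝ) := (Real.rpow_pos_of_pos hQ0 _).le
  -- first part
  have hA : ((PC Q).card : ℝ) * (5 * ((U : ℝ) * U) * Real.log ((NX X : ℝ) + 1) * B) ≤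
      30 * C₀ * Real.log X ^ 4 * ((Q : ℝ) ^ (5 / 2 : ℝ) * X ^ (1 / 5 : ℝ)) := by
    have h3 := mv_card Q
    calc ((PC Q).card : ℝ) * (5 * ((U : ℝ) * U) * Real.log ((NX X : ℝ) + 1) * B)
        ≤ (Q : ℝ) ^ 2 * (5 * X ^ (1 / 5 : ℝ) * (3 * Real.log X) *
          (C₀ * (√(Q : ℝ) * (2 * Real.log X)))) := by
          rw [hB]
          gcongr
      _ = 30 * C₀ * Real.log X ^ 2 * ((Q : ℝ) ^ 2 * √(Q : ℝ) * X ^ (1 / 5 : ℝ)) := by ring
      _ = 30 * C₀ * Real.log X ^ 2 * ((Q : ℝ) ^ (5 / 2 : ℝ) * X ^ (1 / 5 : ℝ)) := by rw [hQ52]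
      _ ≤ 30 * C₀ * Real.log X ^ 4 * ((Q : ℝ) ^ (5 / 2 : ℝ) * X ^ (1 / 5 : ℝ)) := by gcongr
  -- second part
  have hBB : ((Nat.log 2 (NX X) : ℝ) + 1) * (4 * √X * Real.log (3 * X + 1) *
      ((Q : ℝ) ^ 2 + 16 * Q * √(X / U) + 44 * √X)) ≤
      3168 * Real.log X ^ 4 * (X + Q * X ^ (19 / 20 : ℝ) + (Q : ℝ) ^ 2 * √X) := by
    have h9 : 0 ≤ Real.log (3 * X + 1) := Real.log_nonneg (by linarith)
    have h10 : √X * √X = X := Real.mul_self_sqrt hX0.le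
    have h11 : √X * X ^ (9 / 20 : ℝ) = X ^ (19 / 20 : ℝ) := by
      rw [Real.sqrt_eq_rpow, ← Real.rpow_add hX0]
      norm_num
    calc ((Nat.log 2 (NX X) : ℝ) + 1) * (4 * √X * Real.log (3 * X + 1) *
        ((Q : ℝ) ^ 2 + 16 * Q * √(X / U) + 44 * √X))
        ≤ (6 * Real.log X) * (4 * √X * (3 * Real.log X) *
          ((Q : ℝ) ^ 2 + 16 * Q * (2 * X ^ (9 / 20 : ℝ)) + 44 * √X)) := by gcongr
      _ = 72 * Real.log X ^ 2 * ((Q : ℝ) ^ 2 * √X + 32 * (Q * (√X * X ^ (9 / 20 : ℝ))) +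
          44 * (√X * √X)) := by ring
      _ = 72 * Real.log X ^ 2 * ((Q : ℝ) ^ 2 * √X + 32 * (Q * X ^ (19 / 20 : ℝ)) + 44 * X) := by
          rw [h10, h11]
      _ ≤ 72 * Real.log X ^ 4 * (44 * ((Q : ℝ) ^ 2 * √X) + 44 * (Q * X ^ (19 / 20 : ℝ)) +
          44 * X) := by
          have e1 : 0 ≤ (Q : ℝ) ^ 2 * √X := by positivity
          have e2 : 0 ≤ Q * X ^ (19 / 20 : ℝ) := by positivity
          have e3 : (Q : ℝ) ^ 2 * √X + 32 * (Q * X ^ (19 / 20 : ℝ)) + 44 * X ≤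
              44 * ((Q : ℝ) ^ 2 * √X) + 44 * (Q * X ^ (19 / 20 : ℝ)) + 44 * X := by linarith
          have e4 : 0 ≤ (Q : ℝ) ^ 2 * √X + 32 * (Q * X ^ (19 / 20 : ℝ)) + 44 * X := by positivity
          exact mul_le_mul (by linarith) e3 e4 (by positivity)
      _ = 3168 * Real.log X ^ 4 * (X + Q * X ^ (19 / 20 : ℝ) + (Q : ℝ) ^ 2 * √X) := by ring
  have hfin := add_le_add hA (h2.trans hBB)
  refine hfin.trans ?_
  have e1 : 0 ≤ (Q : ℝ) ^ 2 * √X := by positivity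
  have e2 : 0 ≤ Q * X ^ (19 / 20 : ℝ) := by positivity
  have e3 : 0 ≤ (Q : ℝ) ^ (5 / 2 : ℝ) * X ^ (1 / 5 : ℝ) := by positivity
  have e4 : 0 ≤ Real.log X ^ 4 := by positivity
  have e5 : 0 ≤ C₀ * Real.log X ^ 4 * (X + Q * X ^ (19 / 20 : ℝ) + (Q : ℝ) ^ 2 * √X) := by
    positivity
  have e6 : 0 ≤ Real.log X ^ 4 * ((Q : ℝ) ^ (5 / 2 : ℝ) * X ^ (1 / 5 : ℝ)) := by positivity
  nlinarith

end Pool.Agent.H42.MTP
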