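import Pool.Agent.H31.MP.Basic
import Pool.Agent.H27.LS.PolyaVinogradov

/-!
# Row PV of the board `mtp_modules`: the inequality of Pólya and Vinogradov, primitive characters
-/

set_option autoImplicit false

open Finset Complex

namespace Pool.Agent.H42.MTP

open Pool.Agent.H31.MP
open Pool.Agent.H30.BV (cv)
open Pool.Agent.H27.LS (norm_geom_le)

section

variable (q : ℕ) [NeZero q]

private lemma char_star {q : ℕ} [NeZero q] (χ : DirichletCharacter ℂ q) (b : ZMod q) :
    (starRingEnd ℂ) (χ b) = χ⁻¹ b := by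
  rw [starRingEnd_apply, MulChar.star_apply']

/-- Parseval for the additive characters -/
private lemma sum_norm_sq_add (z : ZMod q → ℂ) :
    ∑ a : ZMod q, ‖∑ b, z b * ZMod.stdAddChar (b * a)‖ ^ 2 = (q : ℝ) * ∑ b, ‖z b‖ ^ 2 := by
  classical
  have hst : ∀ x : ZMod q, (starRingEnd ℂ) (ZMod.stdAddChar x) = ZMod.stdAddChar (-x) := by
    intro x
    exact (AddChar.map_neg_eq_conj _ x).symm
  have h1 : ∀ a : ZMod q, ((‖∑ b, z b * ZMod.stdAddChar (b * a)‖ ^ 2 : ℝ) : ℂ) =
      ∑ b, ∑ b', (z b * (starRingEnd ℂ) (z b')) * ZMod.stdAddChar (a * (b - b')) := by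
    intro a
    rw [← Complex.normSq_eq_norm_sq, ← Complex.mul_conj, map_sum, Finset.sum_mul_sum]
    refine Finset.sum_congr rfl fun b _ => Finset.sum_congr rfl fun b' _ => ?_
    rw [map_mul (starRingEnd ℂ), hst, show a * (b - b') = b * a + -(b' * a) by ring,
      AddChar.map_add_eq_mul]
    ring
  have h4 : ((∑ a : ZMod q, ‖∑ b, z b * ZMod.stdAddChar (b * a)‖ ^ 2 : ℝ) : ℂ) =
      (((q : ℝ) * ∑ b, ‖z b‖ ^ 2 : ℝ) : ℂ) := by
    rw [Complex.ofReal_sum, Finset.sum_congr rfl fun a _ => h1 a, Finset.sum_comm]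
    have h5 : ∀ b : ZMod q, ∑ a : ZMod q, ∑ b', (z b * (starRingEnd ℂ) (z b')) *
        ZMod.stdAddChar (a * (b - b')) = (q : ℂ) * ((‖z b‖ ^ 2 : ℝ) : ℂ) := by
      intro b
      rw [Finset.sum_comm]
      have h6 : ∀ b' : ZMod q, ∑ a : ZMod q, (z b * (starRingEnd ℂ) (z b')) *
          ZMod.stdAddChar (a * (b - b')) =
          (z b * (starRingEnd ℂ) (z b')) * (if b - b' = 0 then (q : ℂ) else 0) := by
        intro b'
        rw [← Finset.mul_sum, AddChar.sum_mulShift (b - b') (ZMod.isPrimitive_stdAddChar q),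
          ZMod.card]
        split_ifs <;> simp
      rw [Finset.sum_congr rfl fun b' _ => h6 b', Finset.sum_eq_single b]
      · rw [if_pos (sub_self b), Complex.mul_conj, Complex.normSq_eq_norm_sq, mul_comm]
      · intro b' _ hbb'
        rw [if_neg (fun e => hbb' (sub_eq_zero.1 e).symm), mul_zero]
      · intro h; exact absurd (Finset.mem_univ _) h
    rw [Finset.sum_congr rfl fun b _ => h5 b, ← Finset.mul_sum]
    push_cast
    rfl
  exact_mod_cast h4

private lemma gaussSum_shift {χ : DirichletCharacter ℂ q} (hχ : χ.IsPrimitive) (n : ZMod q) :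
    ∑ b, χ b * ZMod.stdAddChar (b * n) =
      χ⁻¹ n * gaussSum χ (ZMod.stdAddChar (N := q)) := by
  rw [← gaussSum_mulShift_of_isPrimitive (ZMod.stdAddChar (N := q)) hχ n, gaussSum]
  refine Finset.sum_congr rfl fun b _ => ?_
  rw [AddChar.mulShift_apply, mul_comm b n]

/-- The Gauss sum of a primitive character has absolute value `√q`. -/
private lemma norm_gaussSum_sq {χ : DirichletCharacter ℂ q} (hχ : χ.IsPrimitive) :
    ‖gaussSum χ (ZMod.stdAddChar (N := q))‖ ^ 2 = q := by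
  have h1 := sum_norm_sq_add q fun b => χ b
  have h2 : ∑ a : ZMod q, ‖∑ b, χ b * ZMod.stdAddChar (b * a)‖ ^ 2 =
      ‖gaussSum χ (ZMod.stdAddChar (N := q))‖ ^ 2 * ∑ a : ZMod q, ‖χ a‖ ^ 2 := by
    rw [Finset.mul_sum]
    refine Finset.sum_congr rfl fun a _ => ?_
    rw [gaussSum_shift q hχ, norm_mul, mul_pow, ← char_star, RCLike.norm_conj, mul_comm]
  rw [h2] at h1
  have h3 : (0 : ℝ) < ∑ a : ZMod q, ‖χ a‖ ^ 2 := by
    refine Finset.sum_pos' (fun _ _ => by positivity) ⟨1, Finset.mem_univ _, ?_⟩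
    rw [MulChar.map_one]
    simp
  exact mul_right_cancel₀ h3.ne' h1

/-- the additive transform of an initial segment -/
lemma sum_stdAddChar_le (b : ZMod q) (hb : b ≠ 0) (M : ℕ) :
    ‖∑ n ∈ range M, ZMod.stdAddChar (b * (n : ZMod q))‖ ≤
      q / (2 * (b.valMinAbs.natAbs : ℝ)) := by
  have h1 : 0 < b.valMinAbs.natAbs := by
    rw [Int.natAbs_pos]
    intro h
    exact hb ((ZMod.valMinAbs_eq_zero b).1 h)
  have h2 : 2 * b.valMinAbs.natAbs ≤ q := by
    have := ZMod.natAbs_valMinAbs_le b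
    omega
  obtain ⟨s, hs, hsb⟩ : ∃ s : ℝ, (s = 1 ∨ s = -1) ∧
      ((b.valMinAbs : ℤ) : ℝ) = s * (b.valMinAbs.natAbs : ℝ) := by
    rw [Nat.cast_natAbs, Int.cast_abs]
    rcases abs_cases ((b.valMinAbs : ℤ) : ℝ) with h | h
    · exact ⟨1, Or.inl rfl, by rw [h.1, one_mul]⟩
    · exact ⟨-1, Or.inr rfl, by rw [h.1]; ring⟩
  have h3 := norm_geom_le h1 h2 M s hs
  refine le_trans (le_of_eq ?_) h3
  congr 1
  refine Finset.sum_congr rfl fun n _ => ?_
  have h4 : b * (n : ZMod q) = ((b.valMinAbs * n : ℤ) : ZMod q) := by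
    push_cast
    rfl
  rw [h4, ZMod.stdAddChar_coe, ← hsb]
  congr 1
  push_cast
  ring

lemma sum_inv_valMinAbs_le :
    ∑ b ∈ univ.erase (0 : ZMod q), (q : ℝ) / (2 * (b.valMinAbs.natAbs : ℝ)) ≤
      q * (1 + Real.log q) := by
  classical
  have h1 : ∑ b ∈ univ.erase (0 : ZMod q), (q : ℝ) / (2 * (b.valMinAbs.natAbs : ℝ)) ≤
      ∑ x ∈ Icc 1 q ×ˢ (univ : Finset Bool), (q : ℝ) / (2 * (x.1 : ℝ)) := by
    have hinj : Set.InjOn (fun b : ZMod q => (b.valMinAbs.natAbs, decide (0 < b.valMinAbs)))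
        (univ.erase (0 : ZMod q) : Finset (ZMod q)) := by
      intro a ha b hb h
      simp only [Prod.mk.injEq, decide_eq_decide] at h
      have : a.valMinAbs = b.valMinAbs := by
        obtain ⟨h1, h2⟩ := h
        by_cases h3 : 0 < a.valMinAbs
        · have h4 := h2.1 h3; omega
        · have h4 : ¬ 0 < b.valMinAbs := fun h => h3 (h2.2 h)
          omega
      exact ZMod.injective_valMinAbs this
    rw [← Finset.sum_image (f := fun x : ℕ × Bool => (q : ℝ) / (2 * (x.1 : ℝ))) hinj]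
    refine Finset.sum_le_sum_of_subset_of_nonneg ?_ fun _ _ _ => by positivity
    intro x hx
    rw [Finset.mem_image] at hx
    obtain ⟨b, hb, rfl⟩ := hx
    have hb0 := Finset.ne_of_mem_erase hb
    simp only [mem_product, mem_Icc, mem_univ, and_true]
    constructor
    · rw [Nat.one_le_iff_ne_zero, Ne, Int.natAbs_eq_zero]
      intro h
      exact hb0 ((ZMod.valMinAbs_eq_zero b).1 h)
    · have := ZMod.natAbs_valMinAbs_le b
      omega
  refine h1.trans ?_
  rw [Finset.sum_product]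
  have h2 : ∀ x ∈ Icc 1 q, ∑ _y : Bool, (q : ℝ) / (2 * (x : ℝ)) = q * (x : ℝ)⁻¹ := by
    intro x hx
    have : (x : ℝ) ≠ 0 := by
      have := (mem_Icc.1 hx).1
      positivity
    simp only [Finset.sum_const, Finset.card_univ, Fintype.card_bool, nsmul_eq_mul]
    push_cast
    field_simp
  rw [Finset.sum_congr rfl h2, ← Finset.mul_sum]
  gcongr
  have h3 := harmonic_le_one_add_log q
  rw [harmonic_eq_sum_Icc] at h3
  push_cast at h3
  exact h3

/-- Pólya and Vinogradov, primitive characters -/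
theorem polya_vinogradov (h2 : 2 ≤ q) {χ : DirichletCharacter ℂ q} (hχ : χ.IsPrimitive) (M : ℕ) :
    ‖∑ n ∈ range M, cv χ n‖ ≤ √q * (1 + Real.log q) := by
  classical
  have hq0 : (0 : ℝ) < q := by exact_mod_cast (by omega : 0 < q)
  set τ := gaussSum χ (ZMod.stdAddChar (N := q)) with hτ
  have hτn : ‖τ‖ = √q := by
    rw [← norm_gaussSum_sq q hχ, Real.sqrt_sq (norm_nonneg _)]
  have hc : ‖∑ n ∈ range M, cv χ n‖ = ‖∑ n ∈ range M, χ⁻¹ (n : ZMod q)‖ := by
    have h5 : ∑ n ∈ range M, χ⁻¹ (n : ZMod q) = (starRingEnd ℂ) (∑ n ∈ range M, cv χ n) := by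
      rw [map_sum]
      refine Finset.sum_congr rfl fun n _ => ?_
      rw [cv, char_star]
    rw [h5, RCLike.norm_conj]
  have h0 : χ 0 = 0 := by
    have : Fact (1 < q) := ⟨by omega⟩
    exact MulChar.map_nonunit _ not_isUnit_zero
  have h1 : (∑ n ∈ range M, χ⁻¹ (n : ZMod q)) * τ =
      ∑ b ∈ univ.erase (0 : ZMod q), χ b * ∑ n ∈ range M, ZMod.stdAddChar (b * (n : ZMod q)) := by
    have h2 : ∑ b ∈ univ.erase (0 : ZMod q), χ b *
        ∑ n ∈ range M, ZMod.stdAddChar (b * (n : ZMod q)) =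
        ∑ b, χ b * ∑ n ∈ range M, ZMod.stdAddChar (b * (n : ZMod q)) := by
      refine Finset.sum_subset (Finset.erase_subset _ _) fun b _ hb => ?_
      have : b = 0 := by
        by_contra h
        exact hb (Finset.mem_erase.2 ⟨h, Finset.mem_univ _⟩)
      rw [this, h0, zero_mul]
    rw [h2, Finset.sum_mul]
    simp only [Finset.mul_sum]
    rw [Finset.sum_comm]
    refine Finset.sum_congr rfl fun n _ => ?_
    rw [gaussSum_shift q hχ]
  have h3 : ‖(∑ n ∈ range M, χ⁻¹ (n : ZMod q)) * τ‖ ≤ q * (1 + Real.log q) := by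
    rw [h1]
    refine (norm_sum_le _ _).trans (le_trans ?_ (sum_inv_valMinAbs_le q))
    refine Finset.sum_le_sum fun b hb => ?_
    rw [norm_mul]
    have h4 := DirichletCharacter.norm_le_one χ b
    have h5 := sum_stdAddChar_le q b (Finset.ne_of_mem_erase hb) M
    calc _ ≤ 1 * (q / (2 * (b.valMinAbs.natAbs : ℝ))) :=
          mul_le_mul h4 h5 (norm_nonneg _) zero_le_one
      _ = _ := one_mul _
  rw [norm_mul, hτn] at h3
  have h6 : 0 < √(q : ℝ) := Real.sqrt_pos.2 hq0
  rw [hc, ← mul_le_mul_iff_left₀ h6]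
  calc _ ≤ q * (1 + Real.log q) := h3
    _ = _ := by
      nth_rewrite 1 [← Real.mul_self_sqrt hq0.le]
      ring

end

theorem pf_PV : T_PV := by
  refine ⟨2, two_pos, fun q χ hq hχ M => ?_⟩
  have : NeZero q := ⟨by omega⟩
  have h1 := polya_vinogradov q hq hχ M
  have hqR : (2 : ℝ) ≤ q := by exact_mod_cast hq
  have h2 : 1 + Real.log q ≤ 2 * Real.log (2 * q) := by
    have h3 : Real.log (2 * q) = Real.log 2 + Real.log q :=
      Real.log_mul (by norm_num) (by positivity)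
    have h4 := Real.log_two_gt_d9
    have h5 : Real.log 2 ≤ Real.log q := Real.log_le_log (by norm_num) hqR
    rw [h3]
    linarith
  calc _ ≤ √q * (1 + Real.log q) := h1
    _ ≤ √q * (2 * Real.log (2 * q)) := mul_le_mul_of_nonneg_left h2 (Real.sqrt_nonneg _)
    _ = 2 * (√q * Real.log (2 * q)) := by ring

end Pool.Agent.H42.MTP
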